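import Mathlib
import Pool.Agent.Run7.h570.S2.Derived
import Pool.Agent.Run7.h570.S2.Hadamard

/-!
Steiner systems `S(n, q, 2)` with `r = (n-1)/(q-1)` odd, `r > 1`, prime to `q`, and a dihedral group
of automorphisms of order `2 r` fixing a point `p` whose cyclic (or just index two) part `T` is
transitive on the `r` blocks through `p`: the orbits of `T` are hyperovals without the point `p`, and
there is a partial Hadamard matrix with `q` rows and `r - 1` columns.
-/

namespace Pool.Agent.Results.MP_409a13_co.DihedralHadamard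

open Run7.h570.S2

theorem result (V : Type) [Fintype V] [DecidableEq V] (q r : ℕ) (hq : 3 ≤ q)
    (B : Finset (Finset V)) (hB : IsSteiner 2 q B)
    (hr : r = (Fintype.card V - 1) / (q - 1)) (hr1 : 1 < r) (hodd : r % 2 = 1)
    (hcop : Nat.Coprime r q)
    (T : Subgroup (Equiv.Perm V)) (hTcard : Nat.card T = r)
    (hTB : ∀ t ∈ T, ∀ b ∈ B, b.image t ∈ B) (p : V) (hTp : ∀ t ∈ T, t p = p)
    (htrans : ∀ b ∈ B, p ∈ b → ∀ c ∈ B, p ∈ c → ∃ t ∈ T, b.image t = c)
    (τ : Equiv.Perm V) (hτ : ∀ x, τ (τ x) = x) (hτB : ∀ b ∈ B, b.image τ ∈ B)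
    (hinv : ∀ t ∈ T, τ * t * τ = t⁻¹) :
    -- the orbits of `T` and `p` form hyperovals
    (∀ x, x ≠ p → ∃ A : Finset V, (∀ y, y ∈ A ↔ (y = p ∨ ∃ t ∈ T, t x = y)) ∧ A.card = r + 1 ∧
      ∀ b ∈ B, (b ∩ A).card = 0 ∨ (b ∩ A).card = 2) ∧
    -- there is a partial Hadamard matrix with `q` rows and `r - 1` columns
    (∃ H : Matrix (Fin q) (Fin (r - 1)) ℤ, (∀ i j, H i j = 1 ∨ H i j = -1) ∧
      H * H.transpose = ((r : ℤ) - 1) • (1 : Matrix (Fin q) (Fin q) ℤ) ∧
      (∀ j, (∀ i, H i j = 1) ∨ ∑ i, H i j = 0) ∧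
      (Finset.univ.filter (fun j => ∀ i, H i j = 1)).card * q = r - 1) ∧
    -- affine planes
    (Fintype.card V = q ^ 2 → ∃ H : Matrix (Fin q) (Fin q) ℤ, (∀ i j, H i j = 1 ∨ H i j = -1) ∧
      H * H.transpose = (q : ℤ) • (1 : Matrix (Fin q) (Fin q) ℤ)) := by
  classical
  have hS : IsS2 (Finset.univ : Finset V) q r B := by
    rw [hr]; exact isS2_of_isSteiner (by omega) hB
  have hT : RegAt B r T p := ⟨hTcard, hTB, hTp, htrans⟩
  have hττ : τ * τ = 1 := Equiv.ext hτ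
  have hI : Inverts B T τ := by
    refine ⟨hτ, hτB, fun t ht x => ?_⟩
    have h1 : τ * t = t⁻¹ * τ := by
      have h2 := hinv t ht
      calc τ * t = τ * t * (τ * τ) := by rw [hττ, mul_one]
        _ = (τ * t * τ) * τ := by group
        _ = t⁻¹ * τ := by rw [h2]
    exact congrArg (fun f : Equiv.Perm V => f x) h1
  obtain ⟨_, H, h1, h2, h3, h4⟩ := partial_hadamard hq hS hT hI hr1 hodd hcop
  refine ⟨fun x hx => hyperoval hq hS hT hI hr1 hodd hcop x hx, ⟨H, h1, h2, h3, h4⟩, ?_⟩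
  intro hV
  have hrq : r - 1 = q := by
    have h5 : r = q + 1 := by
      rw [hr, hV]
      obtain ⟨a, rfl⟩ : ∃ a, q = a + 1 := ⟨q - 1, by omega⟩
      rw [Nat.add_sub_cancel]
      have : (a + 1) ^ 2 - 1 = (a + 1 + 1) * a := by
        have : (a + 1) ^ 2 = (a + 1 + 1) * a + 1 := by ring
        omega
      rw [this, Nat.mul_div_cancel _ (by omega)]
    omega
  have hrq' : (r : ℤ) - 1 = q := by omega
  let e : Fin q ≃ Fin (r - 1) := finCongr hrq.symm
  refine ⟨Matrix.of (fun i j => H i (e j)), fun i j => h1 i (e j), ?_⟩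
  ext i i'
  have h5 := congrFun (congrFun h2 i) i'
  rw [hrq', Matrix.mul_apply] at h5
  rw [Matrix.mul_apply, ← h5, ← Equiv.sum_comp e]
  rfl

end Pool.Agent.Results.MP_409a13_co.DihedralHadamard
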