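import Mathlib
import Pool.Agent.Run7.h570.S2.Derived
import Pool.Agent.Run7.h570.S2.Dihedral3
import Pool.Agent.Run7.h570.S2.Central

/-!
Steiner systems `S(n, q, 2)` with `r = (n-1)/(q-1)` odd, `r > 1`, prime to `q`, and a group `T` of
`r` automorphisms fixing a point `p` and transitive on the `r` blocks through `p`.  Involutory
automorphisms which invert `T` or centralise `T` are described.
-/

namespace Pool.Agent.Results.MP_409a13_co.InvolutionsAtPoint

open Run7.h570.S2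

theorem result (V : Type) [Fintype V] [DecidableEq V] (q r : ℕ) (hq : 3 ≤ q)
    (B : Finset (Finset V)) (hB : IsSteiner 2 q B)
    (hr : r = (Fintype.card V - 1) / (q - 1)) (hr1 : 1 < r) (hodd : r % 2 = 1)
    (hcop : Nat.Coprime r q)
    (T : Subgroup (Equiv.Perm V)) (hTcard : Nat.card T = r)
    (hTB : ∀ t ∈ T, ∀ b ∈ B, b.image t ∈ B) (p : V) (hTp : ∀ t ∈ T, t p = p)
    (htrans : ∀ b ∈ B, p ∈ b → ∀ c ∈ B, p ∈ c → ∃ t ∈ T, b.image t = c)
    (τ : Equiv.Perm V) (hτ1 : τ ≠ 1) (hτ : ∀ x, τ (τ x) = x) (hτB : ∀ b ∈ B, b.image τ ∈ B) :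
    -- `τ` inverts `T`
    ((∀ t ∈ T, τ * t * τ = t⁻¹) →
      q % 2 = 0 ∧ r % 4 = 1 ∧
      -- the fixed points of `τ` form a block
      Finset.univ.filter (fun x => τ x = x) ∈ B ∧
      -- the system is resolvable
      (∃ col : Finset V → Fin r, ∀ i x, ∃! b, b ∈ B ∧ x ∈ b ∧ col b = i) ∧
      -- blocks missing `p` meet the orbits of `T` in zero or two points
      (∀ x, x ≠ p → ∀ b ∈ B, p ∉ b →
        {y | y ∈ b ∧ ∃ t ∈ T, t x = y}.ncard = 0 ∨ {y | y ∈ b ∧ ∃ t ∈ T, t x = y}.ncard = 2)) ∧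
    -- `τ` centralises `T`
    ((∀ t ∈ T, τ * t * τ = t) →
      (∀ b ∈ B, p ∈ b → b.image τ = b) ∧
      ((q % 2 = 1 ∧ (∀ x, τ x = x ↔ x = p)) ∨
        (q % 2 = 0 ∧ ∃ H : Finset V, p ∉ H ∧ H.card = r ∧ (∀ x, τ x = x ↔ (x = p ∨ x ∈ H)) ∧
          (∀ b ∈ B, b ⊆ H ∨ (b ∩ H).card = 1)))) := by
  classical
  have hS : IsS2 (Finset.univ : Finset V) q r B := by
    rw [hr]; exact isS2_of_isSteiner (by omega) hB
  have hT : RegAt B r T p := ⟨hTcard, hTB, hTp, htrans⟩
  have hττ : τ * τ = 1 := Equiv.ext hτ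
  refine ⟨fun hinv => ?_, fun hcen => ?_⟩
  · have hI : Inverts B T τ := by
      refine ⟨hτ, hτB, fun t ht x => ?_⟩
      have h1 : τ * t = t⁻¹ * τ := by
        have h2 := hinv t ht
        calc τ * t = τ * t * (τ * τ) := by rw [hττ, mul_one]
          _ = (τ * t * τ) * τ := by group
          _ = t⁻¹ * τ := by rw [h2]
      exact congrArg (fun f : Equiv.Perm V => f x) h1
    obtain ⟨h1, h2, h3, h4, h5⟩ := dihedral_main hq hS hT hI hr1 hodd hcop
    refine ⟨h1, h2, h3, h5, fun x hx b hb hpb => ?_⟩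
    have h6 := h4 x hx b hb hpb
    have h7 : ∑ y ∈ b, ind T x y = (({y | y ∈ b ∧ ∃ t ∈ T, t x = y} : Set V).ncard : ℤ) := by
      rw [sum_ind, ← Set.ncard_coe_finset]
      congr 2
      ext y
      simp
    rw [h7] at h6
    omega
  · have hC : Centralises B T τ := by
      refine ⟨hτ, hτ1, hτB, fun t ht x => ?_⟩
      have h1 : τ * t = t * τ := by
        have h2 := hcen t ht
        calc τ * t = τ * t * (τ * τ) := by rw [hττ, mul_one]
          _ = (τ * t * τ) * τ := by group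
          _ = t * τ := by rw [h2]
      exact congrArg (fun f : Equiv.Perm V => f x) h1
    exact central_main (by omega) hS hT hC hr1 hodd

end Pool.Agent.Results.MP_409a13_co.InvolutionsAtPoint
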