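import Mathlib
import Pool.Agent.Run7.h570.S2.Derived

/-!
Steiner systems `S(n, q, t)` with `q - t ≡ 1 (mod 4)` having an involutory automorphism with exactly
`t - 1` fixed points: then `(n - t + 1) / (q - t + 1)` is congruent to `0` or `1` modulo `4`.
-/

namespace Pool.Agent.Results.MP_409a13_co.ReverseSteiner

open Run7.h570.S2

theorem result (V : Type) [Fintype V] [DecidableEq V] (t q : ℕ) (ht : 2 ≤ t) (htq : t < q)
    (hq : (q - t) % 4 = 1) (B : Finset (Finset V)) (hB : IsSteiner t q B)
    (τ : Equiv.Perm V) (hτ : ∀ x, τ (τ x) = x) (hτB : ∀ b ∈ B, b.image τ ∈ B)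
    (hfix : (Finset.univ.filter (fun x => τ x = x)).card = t - 1) :
    (Fintype.card V + 1 - t) / (q + 1 - t) % 4 = 0 ∨
      (Fintype.card V + 1 - t) / (q + 1 - t) % 4 = 1 := by
  have h := reverse_steiner ht htq hq hB τ hτ hτB hfix
  omega

end Pool.Agent.Results.MP_409a13_co.ReverseSteiner
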