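import Mathlib
import Pool.Agent.Run7.h570.S2.Derived
import Pool.Agent.Run7.h570.S2.Solvable

/-!
Steiner systems `S(n, q, 2)` with `q` odd, `r = (n-1)/(q-1)` prime and `q < r < q² - q + 1`, and
solvable groups of automorphisms whose order is divisible by `r`.
-/

namespace Pool.Agent.Results.MP_409a13_co.SolvableSymmetry

open Run7.h570.S2

theorem result (V : Type) [Fintype V] [DecidableEq V] (q r : ℕ) (hq : 3 ≤ q) (hqodd : q % 2 = 1)
    (B : Finset (Finset V)) (hB : IsSteiner 2 q B)
    (hr : r = (Fintype.card V - 1) / (q - 1)) (hrp : r.Prime) (hqr : q < r)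
    (hrq : r < q ^ 2 - q + 1)
    (G : Subgroup (Equiv.Perm V)) (hsol : Group.IsSolvable G)
    (hG : ∀ g ∈ G, ∀ b ∈ B, b.image g ∈ B) (hdvd : r ∣ Nat.card G) :
    -- every involution of `G` has exactly one fixed point
    (∀ τ ∈ G, τ ≠ 1 → (∀ x, τ (τ x) = x) →
      (Finset.univ.filter (fun x => τ x = x)).card = 1) ∧
    -- the two-part of the order of `G` divides `q - 1`
    (∀ m : ℕ, 2 ^ m ∣ Nat.card G → 2 ^ m ∣ q - 1) ∧
    -- the order of `G` is odd when `q` and `r` are congruent to `3` modulo `4`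
    (q % 4 = 3 → r % 4 = 3 → Nat.card G % 2 = 1) := by
  classical
  have hS : IsS2 (Finset.univ : Finset V) q r B := by
    rw [hr]; exact isS2_of_isSteiner (by omega) hB
  have hne : Nonempty V := by
    by_contra h
    rw [not_nonempty_iff] at h
    have h0 : Fintype.card V = 0 := Fintype.card_eq_zero
    rw [h0] at hr
    simp at hr
    omega
  have hrq' : r < q * (q - 1) + 1 := by
    have h1 : q ^ 2 - q = q * (q - 1) := by
      obtain ⟨a, rfl⟩ : ∃ a, q = a + 1 := ⟨q - 1, by omega⟩
      have h2 : (a + 1) ^ 2 = (a + 1) * a + (a + 1) := by ring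
      rw [h2, Nat.add_sub_cancel, Nat.add_sub_cancel]
    rw [← h1]; exact hrq
  have h1 : ∀ τ ∈ G, τ ≠ 1 → (∀ x, τ (τ x) = x) →
      (Finset.univ.filter (fun x => τ x = x)).card = 1 := by
    intro τ hτ hτ1 hττ
    exact solvable_involution hq hqodd hrp hqr hrq' hS G hsol hG hdvd τ hτ (Equiv.ext hττ) hτ1
  refine ⟨h1, ?_, ?_⟩
  · intro m hm
    exact solvable_two_part hq hqodd hrp hqr hrq' hS G hsol hG hdvd hne m hm
  · intro hq4 hr4
    by_contra hodd
    have h2 : 2 ∣ Nat.card G := by omega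
    have : Fact (Nat.Prime 2) := ⟨Nat.prime_two⟩
    obtain ⟨t, ht⟩ := exists_prime_orderOf_dvd_card' (G := G) 2 h2
    have ht2 : ((t : Equiv.Perm V)) * t = 1 := by
      have h3 : t ^ 2 = 1 := by rw [← ht]; exact pow_orderOf_eq_one t
      have h4 := congrArg Subtype.val h3
      rw [sq] at h4
      exact h4
    have ht1 : (t : Equiv.Perm V) ≠ 1 := by
      intro h
      have h5 : t = 1 := Subtype.ext h
      rw [h5, orderOf_one] at ht
      omega
    have hinv : ∀ x, (t : Equiv.Perm V) ((t : Equiv.Perm V) x) = x := fun x =>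
      congrArg (fun f : Equiv.Perm V => f x) ht2
    have h6 := h1 t t.2 ht1 hinv
    have h7 := reverse_steiner (t := 2) (q := q) (by norm_num) (by omega) (by omega) hB
      (t : Equiv.Perm V) hinv (fun b hb => hG t t.2 b hb) h6
    have e1 : Fintype.card V + 1 - 2 = Fintype.card V - 1 := by omega
    have e2 : q + 1 - 2 = q - 1 := by omega
    rw [e1, e2, ← hr] at h7
    omega

end Pool.Agent.Results.MP_409a13_co.SolvableSymmetry
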